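import Mathlib

/-!
MP_c9c10f_co, P(2) for all colourings: characters which are of the form
`exp (i Re (conj T z))` on the lattices `M_n γ̄^(-2^n) ℤ[i]`, with small `M_n`, `T_n`, are of this
form on `m ℤ[i][1/γ̄]`.
-/

set_option autoImplicit false

open Complex

namespace Pool.Agent.Helper85.RG

/-- The continuous character `w ↦ exp (i Re (conj T w))` of the plane. -/
noncomputable def ee (T w : ℂ) : ℂ := exp (I * ((((starRingEnd ℂ) T * w).re : ℝ) : ℂ))

theorem ee_ne_zero (T w : ℂ) : ee T w ≠ 0 := exp_ne_zero _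

theorem ee_zero (T : ℂ) : ee T 0 = 1 := by simp [ee]

theorem ee_add (T w w' : ℂ) : ee T (w + w') = ee T w * ee T w' := by
  rw [ee, ee, ee, ← exp_add]
  congr 1
  rw [mul_add ((starRingEnd ℂ) T), add_re]
  push_cast
  ring

theorem ee_neg (T w : ℂ) : ee T (-w) = (ee T w)⁻¹ := by
  rw [ee, ee, ← exp_neg]
  congr 1
  rw [mul_neg, neg_re]
  push_cast
  ring

theorem ee_sub_left (T T' w : ℂ) : ee (T - T') w = ee T w / ee T' w := by
  rw [ee, ee, ee, ← exp_sub]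
  congr 1
  rw [map_sub, sub_mul, sub_re]
  push_cast
  ring

theorem re_eq_zero_of_exp {r : ℝ} (h : exp (I * (r : ℂ)) = 1) (hr : |r| < 2 * Real.pi) :
    r = 0 := by
  obtain ⟨n, hn⟩ := Complex.exp_eq_one_iff.mp h
  have hr' : r = n * (2 * Real.pi) := by
    have := congrArg Complex.im hn
    simpa using this
  have hpi : 0 < 2 * Real.pi := by positivity
  have hn0 : n = 0 := by
    by_contra hne
    have h1 : (1 : ℝ) ≤ |(n : ℝ)| := by
      have := Int.one_le_abs hne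
      exact_mod_cast this
    rw [hr', abs_mul, abs_of_pos hpi] at hr
    nlinarith
  rw [hr', hn0]; simp

theorem eq_zero_of_lattice {D w : ℂ} (h : ∀ z : GaussianInt, ee D (w * (z : ℂ)) = 1)
    (hs : ‖D‖ * ‖w‖ < 2 * Real.pi) (hw : w ≠ 0) : D = 0 := by
  have hre : ((starRingEnd ℂ) D * w).re = 0 := by
    have h1 := h 1
    rw [ee, map_one, mul_one] at h1
    refine re_eq_zero_of_exp h1 (lt_of_le_of_lt (abs_re_le_norm _) ?_)
    rwa [norm_mul, RCLike.norm_conj]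
  have him : ((starRingEnd ℂ) D * w).im = 0 := by
    have h1 := h ⟨0, 1⟩
    have hI : ((⟨0, 1⟩ : GaussianInt) : ℂ) = I := by
      rw [GaussianInt.toComplex_def']; simp
    rw [ee, hI, ← mul_assoc, mul_I_re] at h1
    have := re_eq_zero_of_exp h1 (by
      rw [abs_neg]
      refine lt_of_le_of_lt (abs_im_le_norm _) ?_
      rwa [norm_mul, RCLike.norm_conj])
    linarith
  have h0 : (starRingEnd ℂ) D * w = 0 := Complex.ext hre him
  rcases mul_eq_zero.mp h0 with h0 | h0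
  · exact (map_eq_zero _).mp h0
  · exact absurd h0 hw

/-- The subgroup on which an additive character agrees with `ee T`. -/
noncomputable def agree (ψ : AddChar ℂ Circle) (T : ℂ) : AddSubgroup ℂ where
  carrier := {x | ((ψ x : Circle) : ℂ) = ee T x}
  zero_mem' := by simp [ee_zero]
  add_mem' := by
    intro a b ha hb
    simp only [Set.mem_ofPred_eq] at ha hb ⊢
    rw [AddChar.map_add_eq_mul, Circle.coe_mul, ha, hb, ee_add]
  neg_mem' := by
    intro a ha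
    simp only [Set.mem_ofPred_eq] at ha ⊢
    rw [AddChar.map_neg_eq_inv, Circle.coe_inv, ha, ee_neg]

theorem mem_agree {ψ : AddChar ℂ Circle} {T x : ℂ} :
    x ∈ agree ψ T ↔ ((ψ x : Circle) : ℂ) = ee T x := Iff.rfl

theorem two_sub_I_ne : (2 - I : ℂ) ≠ 0 := by
  intro h
  have := congrArg Complex.re h
  simp at this

theorem norm_sq_two_sub_I : ‖(2 - I : ℂ)‖ ^ 2 = 5 := by
  rw [← Complex.normSq_eq_norm_sq, Complex.normSq_apply]
  simp; norm_num

theorem five_eq : ((2 : ℂ) + I) * (2 - I) = 5 := by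
  have := Complex.I_sq
  linear_combination -this

theorem coe_gb : (((⟨2, -1⟩ : GaussianInt)) : ℂ) = 2 - I := by
  rw [GaussianInt.toComplex_def']; push_cast; ring

theorem coe_g : (((⟨2, 1⟩ : GaussianInt)) : ℂ) = 2 + I := by
  rw [GaussianInt.toComplex_def']; push_cast; ring

theorem coprime_aux (M' e N : ℕ) (h5 : ¬ 5 ∣ M') :
    IsCoprime ((M' : GaussianInt) * (⟨2, 1⟩ : GaussianInt) ^ e) ((⟨2, -1⟩ : GaussianInt) ^ N) := by
  have hg : (⟨2, 1⟩ : GaussianInt) * ⟨2, -1⟩ = 5 := by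
    ext <;> simp
  refine IsCoprime.mul_left (IsCoprime.pow_right ?_) (IsCoprime.pow ?_)
  · have hc : IsCoprime (M' : ℤ) (5 : ℤ) := by
      have : Nat.Coprime M' 5 := ((Nat.Prime.coprime_iff_not_dvd (by norm_num)).mpr h5).symm
      exact_mod_cast Nat.isCoprime_iff_coprime.mpr this
    obtain ⟨x, y, hxy⟩ := hc
    refine ⟨(x : GaussianInt), (y : GaussianInt) * ⟨2, 1⟩, ?_⟩
    rw [mul_assoc, hg]
    exact_mod_cast congrArg (fun t : ℤ => (t : GaussianInt)) hxy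
  · refine ⟨⟨1, -1⟩, -1, ?_⟩
    ext <;> simp

/-- Row COP. -/
theorem cop (ψ : AddChar ℂ Circle) (c : ℝ) (hc : c ≤ Real.log 5 / 10) (n0 : ℕ)
    (h : ∀ n : ℕ, n0 ≤ n → ∃ (M : ℕ) (T : ℂ), 1 ≤ M ∧ (M : ℝ) ≤ Real.exp (c * 2 ^ n) ∧
      ‖T‖ ≤ Real.exp (c * 2 ^ n) ∧ ∀ z : GaussianInt,
        ((ψ ((M : ℂ) * ((2 - I)⁻¹ ^ (2 ^ n) * (z : ℂ))) : Circle) : ℂ) =
          ee T ((M : ℂ) * ((2 - I)⁻¹ ^ (2 ^ n) * (z : ℂ)))) :
    ∃ (m : ℕ) (T : ℂ), 1 ≤ m ∧ ∀ (N : ℕ) (z : GaussianInt),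
      ((ψ ((m : ℂ) * ((2 - I)⁻¹ ^ N * (z : ℂ))) : Circle) : ℂ) =
        ee T ((m : ℂ) * ((2 - I)⁻¹ ^ N * (z : ℂ))) := by
  choose! M T hM1 hM hT hψ using h
  set g : ℂ := (2 - I)⁻¹ with hg
  have hg0 : g ≠ 0 := inv_ne_zero two_sub_I_ne
  -- the size `a n = exp (log 5 / 10 * 2 ^ n)`
  set a : ℕ → ℝ := fun n => Real.exp (Real.log 5 / 10 * 2 ^ n) with ha
  have hapos : ∀ n, 0 < a n := fun n => Real.exp_pos _
  have ha1 : ∀ n, 1 ≤ a n := fun n => Real.one_le_exp (by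
    have : 0 ≤ Real.log 5 := Real.log_nonneg (by norm_num)
    positivity)
  have ha2 : ∀ n, a (n + 1) = a n ^ 2 := by
    intro n
    simp only [ha]
    rw [← Real.exp_nat_mul]
    congr 1
    push_cast
    ring
  have ha10 : ∀ n, a n ^ 10 = 5 ^ (2 ^ n) := by
    intro n
    simp only [ha]
    rw [← Real.exp_nat_mul]
    have : ((10 : ℕ) : ℝ) * (Real.log 5 / 10 * 2 ^ n) = ((2 ^ n : ℕ) : ℝ) * Real.log 5 := by
      push_cast; ring
    rw [this, Real.exp_nat_mul, Real.exp_log (by norm_num)]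
  have hle : ∀ n, Real.exp (c * 2 ^ n) ≤ a n := fun n =>
    Real.exp_le_exp.mpr (mul_le_mul_of_nonneg_right hc (by positivity))
  have hgn : ∀ n, ‖g ^ (2 ^ n)‖ * a n ^ 5 = 1 := by
    intro n
    have h1 : (‖g ^ (2 ^ n)‖ * a n ^ 5) ^ 2 = 1 := by
      have h2 : ‖g‖ ^ 2 = 1 / 5 := by
        rw [hg, norm_inv, inv_pow, norm_sq_two_sub_I]; norm_num
      have h3 : ‖g ^ (2 ^ n)‖ ^ 2 = (1 / 5) ^ (2 ^ n) := by
        rw [norm_pow, ← pow_mul, mul_comm, pow_mul, h2]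
      rw [mul_pow, h3, ← pow_mul, show 5 * 2 = 10 by norm_num, ha10, ← mul_pow]
      norm_num
    have h0 : 0 ≤ ‖g ^ (2 ^ n)‖ * a n ^ 5 := by have := hapos n; positivity
    nlinarith [sq_nonneg (‖g ^ (2 ^ n)‖ * a n ^ 5 - 1), sq_nonneg (‖g ^ (2 ^ n)‖ * a n ^ 5 + 1)]
  -- consecutive `T` agree
  have hstep : ∀ n, n0 ≤ n → T (n + 1) = T n := by
    intro n hn
    have hn' : n0 ≤ n + 1 := by omega
    set w : ℂ := (M n : ℂ) * (M (n + 1) : ℂ) * g ^ (2 ^ n) with hw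
    have hw0 : w ≠ 0 := by
      have h1 : (M n : ℂ) ≠ 0 := by
        have := hM1 n hn; exact_mod_cast (by omega : M n ≠ 0)
      have h2 : (M (n + 1) : ℂ) ≠ 0 := by
        have := hM1 (n + 1) hn'; exact_mod_cast (by omega : M (n + 1) ≠ 0)
      exact mul_ne_zero (mul_ne_zero h1 h2) (pow_ne_zero _ hg0)
    have hlat : ∀ z : GaussianInt, ee (T (n + 1) - T n) (w * (z : ℂ)) = 1 := by
      intro z
      have h1 := hψ n hn ((M (n + 1) : GaussianInt) * z)
      have h2 := hψ (n + 1) hn' ((M n : GaussianInt) * (⟨2, -1⟩ : GaussianInt) ^ (2 ^ n) * z)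
      have e1 : (M n : ℂ) * (g ^ (2 ^ n) * (((M (n + 1) : GaussianInt) * z : GaussianInt) : ℂ)) =
          w * (z : ℂ) := by
        rw [hw]; simp only [map_mul, map_natCast]; ring
      have e2 : (M (n + 1) : ℂ) * (g ^ (2 ^ (n + 1)) *
          (((M n : GaussianInt) * (⟨2, -1⟩ : GaussianInt) ^ (2 ^ n) * z : GaussianInt) : ℂ)) =
          w * (z : ℂ) := by
        rw [hw]
        simp only [map_mul, map_natCast, map_pow]
        rw [coe_gb, pow_succ 2 n, pow_mul, sq]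
        have : g ^ 2 ^ n * (2 - I) ^ 2 ^ n = 1 := by
          rw [← mul_pow, hg, inv_mul_cancel₀ two_sub_I_ne, one_pow]
        linear_combination ((M (n + 1) : ℂ) * g ^ 2 ^ n * M n * (z : ℂ)) * this
      rw [e1] at h1
      rw [e2] at h2
      rw [ee_sub_left, ← h1, ← h2, div_self]
      exact Circle.coe_ne_zero _
    have hsmall : ‖T (n + 1) - T n‖ * ‖w‖ < 2 * Real.pi := by
      have b1 : ‖T (n + 1) - T n‖ ≤ a n ^ 2 + a n := by
        refine (norm_sub_le _ _).trans (add_le_add ?_ ?_)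
        · rw [← ha2]; exact (hT (n + 1) hn').trans (hle _)
        · exact (hT n hn).trans (hle _)
      have b2 : ‖w‖ ≤ a n * a n ^ 2 * ‖g ^ (2 ^ n)‖ := by
        rw [hw, norm_mul, norm_mul, Complex.norm_natCast, Complex.norm_natCast]
        refine mul_le_mul_of_nonneg_right (mul_le_mul ?_ ?_ (by positivity) (hapos n).le)
          (norm_nonneg _)
        · exact (hM n hn).trans (hle _)
        · rw [← ha2]; exact (hM (n + 1) hn').trans (hle _)
      have b3 : ‖T (n + 1) - T n‖ * ‖w‖ ≤ (a n ^ 2 + a n) * (a n * a n ^ 2 * ‖g ^ (2 ^ n)‖) :=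
        mul_le_mul b1 b2 (norm_nonneg _) (by have := hapos n; positivity)
      have b4 : (a n ^ 2 + a n) * (a n * a n ^ 2 * ‖g ^ (2 ^ n)‖) ≤ 2 := by
        have h1 := ha1 n
        have h2 := hapos n
        have h3 : a n ^ 2 + a n ≤ 2 * a n ^ 2 := by nlinarith
        calc (a n ^ 2 + a n) * (a n * a n ^ 2 * ‖g ^ (2 ^ n)‖)
            ≤ (2 * a n ^ 2) * (a n * a n ^ 2 * ‖g ^ (2 ^ n)‖) :=
              mul_le_mul_of_nonneg_right h3 (by positivity)
          _ = 2 * (‖g ^ (2 ^ n)‖ * a n ^ 5) := by ring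
          _ = 2 := by rw [hgn]; norm_num
      have := Real.pi_gt_three
      linarith
    have := eq_zero_of_lattice hlat hsmall hw0
    exact sub_eq_zero.mp this
  have hconst : ∀ n, n0 ≤ n → T n = T n0 := by
    intro n hn
    induction n, hn using Nat.le_induction with
    | base => rfl
    | succ n hn ih => rw [hstep n hn, ih]
  have hmem : ∀ n, n0 ≤ n → ∀ z : GaussianInt,
      (M n : ℂ) * (g ^ (2 ^ n) * (z : ℂ)) ∈ agree ψ (T n0) := by
    intro n hn z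
    have := hψ n hn z
    rw [hconst n hn] at this
    exact this
  refine ⟨M n0, T n0, hM1 n0 le_rfl, ?_⟩
  intro N z
  change (M n0 : ℂ) * (g ^ N * (z : ℂ)) ∈ agree ψ (T n0)
  -- a large `n`
  set n := max n0 (N + 1) with hn
  have hnn0 : n0 ≤ n := le_max_left _ _
  have hnN : N + 1 ≤ n := le_max_right _ _
  have h2n : 2 * N ≤ 2 ^ n := by
    have h1 : 2 ^ (N + 1) ≤ 2 ^ n := Nat.pow_le_pow_right (by norm_num) hnN
    have h2 : N < 2 ^ N := Nat.lt_two_pow_self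
    rw [pow_succ] at h1
    omega
  obtain ⟨e, M', h5, hMe⟩ := Nat.exists_eq_pow_mul_and_not_dvd
    (by have := hM1 n hnn0; omega : M n ≠ 0) 5 (by norm_num)
  have he : 10 * e ≤ 2 ^ n := by
    have h1 : ((5 ^ e : ℕ) : ℝ) ≤ a n := by
      have h2 : 5 ^ e ≤ M n := by
        have hM' : 0 < M' := Nat.pos_of_ne_zero (by rintro rfl; exact h5 (dvd_zero _))
        rw [hMe]; exact Nat.le_mul_of_pos_right _ hM'
      calc ((5 ^ e : ℕ) : ℝ) ≤ (M n : ℝ) := by exact_mod_cast h2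
        _ ≤ a n := (hM n hnn0).trans (hle _)
    have h2 : ((5 : ℝ)) ^ (10 * e) ≤ 5 ^ (2 ^ n) := by
      rw [← ha10]
      calc (5 : ℝ) ^ (10 * e) = (((5 ^ e : ℕ) : ℝ)) ^ 10 := by
            push_cast; rw [← pow_mul]; ring_nf
        _ ≤ a n ^ 10 := pow_le_pow_left₀ (by positivity) h1 10
    exact (pow_le_pow_iff_right₀ (by norm_num : (1 : ℝ) < 5)).mp h2
  have heN : e + N ≤ 2 ^ n := by omega
  obtain ⟨r, hr⟩ := Nat.exists_eq_add_of_le heN
  obtain ⟨x, y, hxy⟩ := coprime_aux M' e N h5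
  have hxyC : (x : ℂ) * ((M' : ℂ) * (2 + I) ^ e) + (y : ℂ) * (2 - I) ^ N = 1 := by
    have := congrArg (fun t : GaussianInt => (t : ℂ)) hxy
    simp only [map_mul, map_natCast, map_pow, map_add, map_one] at this
    rw [coe_g, coe_gb] at this
    exact this
  have hgg : ∀ j : ℕ, g ^ j * (2 - I) ^ j = 1 := by
    intro j
    rw [← mul_pow, hg, inv_mul_cancel₀ two_sub_I_ne, one_pow]
  have m1 := hmem n hnn0 (x * ((⟨2, -1⟩ : GaussianInt) ^ r * (M n0 : GaussianInt)) * z)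
  have m2 := hmem n0 le_rfl (y * (⟨2, -1⟩ : GaussianInt) ^ (2 ^ n0) * z)
  have e1 : (M n : ℂ) * (g ^ (2 ^ n) *
      ((x * ((⟨2, -1⟩ : GaussianInt) ^ r * (M n0 : GaussianInt)) * z : GaussianInt) : ℂ)) =
      (x : ℂ) * ((M' : ℂ) * (2 + I) ^ e) * ((M n0 : ℂ) * (g ^ N * (z : ℂ))) := by
    rw [hMe, hr, pow_add, pow_add]
    simp only [map_mul, map_natCast, map_pow]
    push_cast
    rw [coe_gb, ← five_eq, mul_pow]
    have h1 := hgg e
    have h2 := hgg r
    linear_combination ((x : ℂ) * M' * (2 + I) ^ e * M n0 * g ^ N * (z : ℂ)) *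
      ((g ^ r * (2 - I) ^ r) * h1 + h2)
  have e2 : (M n0 : ℂ) * (g ^ (2 ^ n0) *
      ((y * (⟨2, -1⟩ : GaussianInt) ^ (2 ^ n0) * z : GaussianInt) : ℂ)) =
      (y : ℂ) * (2 - I) ^ N * ((M n0 : ℂ) * (g ^ N * (z : ℂ))) := by
    simp only [map_mul, map_pow]
    rw [coe_gb]
    have h1 := hgg (2 ^ n0)
    have h2 := hgg N
    linear_combination ((y : ℂ) * M n0 * (z : ℂ)) * (h1 - h2)
  rw [e1] at m1
  rw [e2] at m2
  have := (agree ψ (T n0)).add_mem m1 m2
  rwa [← add_mul, hxyC, one_mul] at this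

end Pool.Agent.Helper85.RG
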