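import Mathlib

/-!
MP_c9c10f_co, P(2) for all colourings: the prime `q` is split by
`α = (1 + √(1 - 4 q)) / 2`, `α + conj α = 1`, `α * conj α = q`.
-/

set_option autoImplicit false

namespace Pool.Agent.Helper85.RG

/-- The Lucas sequence of `X ^ 2 - X + q`. -/
def U (q : ℤ) : ℕ → ℤ
  | 0 => 0
  | 1 => 1
  | n + 2 => U q (n + 1) - q * U q n

theorem U_succ_mod (q : ℤ) (n : ℕ) : ∃ c : ℤ, U q (n + 1) = 1 + q * c := by
  induction n with
  | zero => exact ⟨0, by simp [U]⟩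
  | succ n ih =>
    obtain ⟨c, hc⟩ := ih
    refine ⟨c - U q n, ?_⟩
    rw [U, hc]; ring

theorem pow_eq {α : ℂ} {q : ℤ} (h : α ^ 2 = α - q) (n : ℕ) :
    α ^ (n + 1) = (U q (n + 1) : ℂ) * α - (q : ℂ) * (U q n : ℂ) := by
  induction n with
  | zero => simp [U]
  | succ n ih =>
    rw [pow_succ, ih, U]
    push_cast
    linear_combination (U q (n + 1) : ℂ) * h

/-- If `α + β = 1`, `α β = q` and `v = α / β`, then `1 / q ^ k` is an integral combination of
`1`, `v ^ k`, `v ^ (-k')` for `1 ≤ k ≤ k'`. -/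
theorem inv_pow_mem (q : ℕ) (hq : 1 ≤ q) (α β : ℂ) (hs : α + β = 1) (hp : α * β = q)
    (N : AddSubgroup ℂ) (h1 : (1 : ℂ) ∈ N) (k k' : ℕ) (hk : 1 ≤ k) (hkk : k ≤ k')
    (hv : (α / β) ^ k ∈ N) (hv' : (β / α) ^ k' ∈ N) : (1 / (q : ℂ) ^ k) ∈ N := by
  have hq0 : (q : ℂ) ≠ 0 := by exact_mod_cast (by omega : q ≠ 0)
  have hα0 : α ≠ 0 := by rintro rfl; rw [zero_mul] at hp; exact hq0 hp.symm
  have hβ0 : β ≠ 0 := by rintro rfl; rw [mul_zero] at hp; exact hq0 hp.symm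
  have hβ : β = 1 - α := by linear_combination hs
  have hα2 : α ^ 2 = α - ((q : ℤ) : ℂ) := by
    have : α * (1 - α) = q := by rw [← hβ]; exact hp
    push_cast
    linear_combination -this
  have hβ2 : β ^ 2 = β - ((q : ℤ) : ℂ) := by
    have h' : α = 1 - β := by linear_combination hs
    have : (1 - β) * β = q := by rw [← h']; exact hp
    push_cast
    linear_combination -this
  obtain ⟨K, rfl⟩ := Nat.exists_eq_add_of_le' hk
  obtain ⟨K', rfl⟩ := Nat.exists_eq_add_of_le' (hk.trans hkk)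
  have hα' : α ^ (2 * (K + 1)) =
      (U q (2 * K + 2) : ℂ) * α - (q : ℂ) * (U q (2 * K + 1) : ℂ) := by
    have := pow_eq hα2 (2 * K + 1)
    rw [show 2 * (K + 1) = 2 * K + 1 + 1 by ring]
    simpa using this
  have hβ' : β ^ (2 * (K' + 1)) =
      (U q (2 * K' + 2) : ℂ) * β - (q : ℂ) * (U q (2 * K' + 1) : ℂ) := by
    have := pow_eq hβ2 (2 * K' + 1)
    rw [show 2 * (K' + 1) = 2 * K' + 1 + 1 by ring]
    simpa using this
  have e1 : (α / β) ^ (K + 1) * (q : ℂ) ^ (K + 1) = α ^ (2 * (K + 1)) := by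
    rw [← mul_pow, ← hp, pow_mul]
    congr 1
    field_simp
  have e2 : (β / α) ^ (K' + 1) * (q : ℂ) ^ (K' + 1) = β ^ (2 * (K' + 1)) := by
    rw [← mul_pow, ← hp, pow_mul]
    congr 1
    field_simp
  -- the integer `w`
  obtain ⟨c1, hc1⟩ := U_succ_mod q (2 * K + 1)
  obtain ⟨c2, hc2⟩ := U_succ_mod q (2 * K' + 2)
  set w : ℤ := U q (2 * K + 2) * U q (2 * K' + 3) - q * U q (2 * K' + 2) * U q (2 * K + 1)
    with hw
  have hU3 : U q (2 * K' + 3) = U q (2 * K' + 2) - q * U q (2 * K' + 1) := by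
    rw [show 2 * K' + 3 = (2 * K' + 1) + 2 by ring, U]
  have hcop : IsCoprime w ((q : ℤ) ^ (K + 1)) := by
    apply IsCoprime.pow_right
    refine ⟨1, -(c1 + c2 + q * c1 * c2 - U q (2 * K' + 2) * U q (2 * K + 1)), ?_⟩
    rw [hw, show (2 * K + 2) = 2 * K + 1 + 1 by ring, show 2 * K' + 3 = 2 * K' + 2 + 1 by ring,
      hc1, hc2]
    ring
  obtain ⟨a, b, hab⟩ := hcop
  obtain ⟨d, hd⟩ := Nat.exists_eq_add_of_le hkk
  have key : (w : ℂ) / (q : ℂ) ^ (K + 1) =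
      (U q (2 * K' + 2) : ℂ) * (α / β) ^ (K + 1) +
        ((q : ℂ) ^ d * (U q (2 * K + 2) : ℂ)) * (β / α) ^ (K' + 1) := by
    rw [div_eq_iff (pow_ne_zero _ hq0)]
    have e3 : ((U q (2 * K' + 2) : ℂ) * (α / β) ^ (K + 1) +
        ((q : ℂ) ^ d * (U q (2 * K + 2) : ℂ)) * (β / α) ^ (K' + 1)) * (q : ℂ) ^ (K + 1) =
        (U q (2 * K' + 2) : ℂ) * ((α / β) ^ (K + 1) * (q : ℂ) ^ (K + 1)) +
        (U q (2 * K + 2) : ℂ) * ((β / α) ^ (K' + 1) * (q : ℂ) ^ (K' + 1)) := by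
      have : (q : ℂ) ^ (K' + 1) = (q : ℂ) ^ d * (q : ℂ) ^ (K + 1) := by
        rw [hd, pow_add]; ring
      rw [this]; ring
    rw [e3, e1, e2, hα', hβ', hβ, hw, hU3]
    push_cast
    ring
  have hmem : (w : ℂ) / (q : ℂ) ^ (K + 1) ∈ N := by
    rw [key]
    refine N.add_mem ?_ ?_
    · have := N.zsmul_mem hv (U q (2 * K' + 2))
      rwa [zsmul_eq_mul] at this
    · have := N.zsmul_mem hv' ((q : ℤ) ^ d * U q (2 * K + 2))
      rw [zsmul_eq_mul] at this
      push_cast at this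
      exact this
  have hfin : (1 : ℂ) / (q : ℂ) ^ (K + 1) = a * ((w : ℂ) / (q : ℂ) ^ (K + 1)) + b * 1 := by
    have hab' : (a : ℂ) * w + b * (q : ℂ) ^ (K + 1) = 1 := by exact_mod_cast hab
    field_simp
    linear_combination -hab'
  rw [hfin]
  refine N.add_mem ?_ ?_
  · have := N.zsmul_mem hmem a
    rwa [zsmul_eq_mul] at this
  · have := N.zsmul_mem h1 b
    rwa [zsmul_eq_mul] at this

/-- An additive subgroup of `ℂ` which contains, for every prime `q`, the number `1 / q ^ k` for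
arbitrarily large `k`, contains `1 / n` for every `n ≥ 1`. -/
theorem inv_nat_mem (N : AddSubgroup ℂ)
    (h : ∀ q : ℕ, q.Prime → ∀ K : ℕ, ∃ k : ℕ, K ≤ k ∧ (1 / (q : ℂ) ^ k) ∈ N) :
    ∀ n : ℕ, 1 ≤ n → (1 / (n : ℂ)) ∈ N := by
  have hpow : ∀ q : ℕ, q.Prime → ∀ k : ℕ, (1 / (q : ℂ) ^ k) ∈ N := by
    intro q hq k
    obtain ⟨k', hk', hm⟩ := h q hq k
    obtain ⟨d, rfl⟩ := Nat.exists_eq_add_of_le hk'
    have hq0 : (q : ℂ) ≠ 0 := by exact_mod_cast hq.ne_zero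
    have := N.nsmul_mem hm (q ^ d)
    rw [nsmul_eq_mul] at this
    convert this using 1
    push_cast
    field_simp
    ring
  intro n
  induction n using Nat.recOnPosPrimePosCoprime with
  | prime_pow q k hq hk =>
    intro _
    have := hpow q hq k
    push_cast
    exact this
  | zero => intro h0; omega
  | one =>
    intro _
    have := hpow 2 Nat.prime_two 0
    simpa using this
  | coprime a b ha hb hab iha ihb =>
    intro _
    have ha0 : (a : ℂ) ≠ 0 := by exact_mod_cast (by omega : a ≠ 0)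
    have hb0 : (b : ℂ) ≠ 0 := by exact_mod_cast (by omega : b ≠ 0)
    have hc : IsCoprime (a : ℤ) (b : ℤ) := Nat.isCoprime_iff_coprime.mpr hab
    obtain ⟨x, y, hxy⟩ := hc
    have hxy' : (x : ℂ) * a + y * b = 1 := by exact_mod_cast hxy
    have e : (1 : ℂ) / ((a * b : ℕ) : ℂ) = x * (1 / (b : ℂ)) + y * (1 / (a : ℂ)) := by
      push_cast
      field_simp
      linear_combination -hxy'
    rw [e]
    refine N.add_mem ?_ ?_
    · have := N.zsmul_mem (ihb (by omega)) x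
      rwa [zsmul_eq_mul] at this
    · have := N.zsmul_mem (iha (by omega)) y
      rwa [zsmul_eq_mul] at this

/-- For every natural `q ≥ 1` there are `α, β` with `α + β = 1`, `α β = q` and `|α / β| = 1`. -/
theorem exists_alpha (q : ℕ) (hq : 1 ≤ q) :
    ∃ α β : ℂ, α + β = 1 ∧ α * β = q ∧ ‖α / β‖ = 1 ∧ ‖β / α‖ = 1 := by
  have hnn : (0 : ℝ) ≤ 4 * q - 1 := by
    have : (1 : ℝ) ≤ q := by exact_mod_cast hq
    linarith
  set s : ℝ := Real.sqrt (4 * q - 1) with hs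
  have hs2 : s ^ 2 = 4 * q - 1 := Real.sq_sqrt hnn
  have hs2' : (s : ℂ) ^ 2 = 4 * q - 1 := by exact_mod_cast congrArg (fun r : ℝ => (r : ℂ)) hs2
  set α : ℂ := ⟨1 / 2, s / 2⟩ with hα
  set β : ℂ := ⟨1 / 2, -(s / 2)⟩ with hβ
  have hc : β = (starRingEnd ℂ) α := by
    apply Complex.ext <;> simp [hα, hβ]
  have hnorm : ‖β‖ = ‖α‖ := by rw [hc, RCLike.norm_conj]
  have hprod : α * β = q := by
    apply Complex.ext
    · simp [hα, hβ]; nlinarith [hs2]
    · simp [hα, hβ]; ring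
  have hα0 : α ≠ 0 := by
    intro h
    have := congrArg Complex.re h
    simp [hα] at this
  have hn0 : ‖α‖ ≠ 0 := norm_ne_zero_iff.mpr hα0
  refine ⟨α, β, ?_, hprod, ?_, ?_⟩
  · apply Complex.ext
    · simp [hα, hβ]; norm_num
    · simp [hα, hβ]
  · rw [norm_div, hnorm, div_self hn0]
  · rw [norm_div, hnorm, div_self hn0]

end Pool.Agent.Helper85.RG
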