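import Pool.Agent.Helper1.RG.Defs
import Pool.Agent.Helper85.RG.COP
import Pool.Agent.Helper85.RG.LUC

/-! RG rows F3 (rigidity) and Q1 (identity). -/

set_option autoImplicit false

open Complex
open scoped ComplexConjugate

namespace Pool.Agent.Helper85.RG

open Pool.Agent.Helper1.RG

theorem e_coe (T z : ℂ) : ((e T z : Circle) : ℂ) = ee T z := by
  rw [e, ee, Circle.coe_exp, mul_comm I]

theorem coe_mem_ZI (z : GaussianInt) : (z : ℂ) ∈ ZI :=
  ⟨z.re, z.im, GaussianInt.toComplex_def z⟩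

theorem mem_ZI_iff {x : ℂ} : x ∈ ZI ↔ ∃ z : GaussianInt, (z : ℂ) = x := by
  constructor
  · rintro ⟨a, b, rfl⟩
    exact ⟨⟨a, b⟩, GaussianInt.toComplex_def' a b⟩
  · rintro ⟨z, rfl⟩
    exact coe_mem_ZI z

theorem st_F3 : ST_F3 := by
  intro χ n₀ h
  have hlog : (1 / 40 : ℝ) ≤ Real.log 5 / 10 := by
    have h1 : Real.log 4 ≤ Real.log 5 := Real.log_le_log (by norm_num) (by norm_num)
    have h2 : Real.log 4 = 2 * Real.log 2 := by
      rw [show (4 : ℝ) = 2 ^ 2 by norm_num, Real.log_pow]; norm_num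
    have h3 := Real.log_two_gt_d9
    linarith
  have key := cop χ (1 / 40) hlog n₀ (by
    intro n hn
    obtain ⟨M, T, hM1, hM, hT, hz⟩ := h n hn
    have hexp : Real.exp (2 ^ n / 40) = Real.exp (1 / 40 * 2 ^ n) := by
      congr 1; ring
    refine ⟨M, T, hM1, hexp ▸ hM, hexp ▸ hT, ?_⟩
    intro z
    have := hz (z : ℂ) (coe_mem_ZI z)
    have e1 : (M : ℂ) * (z : ℂ) / gb ^ (2 ^ n) = (M : ℂ) * ((2 - I)⁻¹ ^ (2 ^ n) * (z : ℂ)) := by
      rw [gb, inv_pow, div_eq_mul_inv]; ring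
    rw [e1] at this
    rw [this, e_coe])
  obtain ⟨m, T, hm, hz⟩ := key
  refine ⟨m, hm, T, ?_⟩
  rintro z ⟨N, hN⟩
  obtain ⟨w, hw⟩ := mem_ZI_iff.mp hN
  have e1 : (m : ℂ) * z = (m : ℂ) * ((2 - I)⁻¹ ^ N * (w : ℂ)) := by
    rw [hw, gb, ← mul_assoc ((2 - I)⁻¹ ^ N), ← mul_pow, inv_mul_cancel₀ two_sub_I_ne, one_pow,
      one_mul]
  have := hz N w
  rw [e1]
  apply Subtype.ext
  rw [this]
  exact (e_coe _ _).symm

theorem st_Q1 : ST_Q1 := by
  intro q hq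
  obtain ⟨α, β, hs, hp, h1, h2⟩ := exists_alpha q hq.one_lt.le
  refine ⟨α / β, h1, ?_⟩
  intro k k' hk hkk
  -- the subgroup generated by `1`, `v ^ k`, `v ^ (-k')`
  let N : AddSubgroup ℂ :=
    { carrier := {x | ∃ a b c : ℤ, x = a + b * (α / β) ^ k + c * ((α / β)⁻¹) ^ k'}
      zero_mem' := ⟨0, 0, 0, by simp⟩
      add_mem' := by
        rintro x y ⟨a, b, c, rfl⟩ ⟨a', b', c', rfl⟩
        exact ⟨a + a', b + b', c + c', by push_cast; ring⟩
      neg_mem' := by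
        rintro x ⟨a, b, c, rfl⟩
        exact ⟨-a, -b, -c, by push_cast; ring⟩ }
  have := inv_pow_mem q hq.one_lt.le α β hs hp N ⟨1, 0, 0, by simp⟩ k k' hk hkk
    ⟨0, 1, 0, by simp⟩ ⟨0, 0, 1, by rw [inv_div]; simp⟩
  exact this

end Pool.Agent.Helper85.RG
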