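import Pool.Agent.Helper1.RG.Defs

/-! RG row BO1: Foelner sets in the additive group `ℂ`. -/

set_option autoImplicit false

namespace Pool.Agent.Helper85.RG

open Pool.Agent.Helper1.RG Filter

theorem st_BO1 : ST_BO1 := by
  classical
  intro S ε hε
  set φ : (S → ℕ) → ℂ := fun m => ∑ s : S, (m s : ℂ) * (s : ℂ) with hφ
  set C : ℕ → Finset ℂ := fun n =>
    (Fintype.piFinset (fun _ : S => Finset.range (n + 1))).image φ with hC
  have hcard : ∀ n, (C n).card ≤ (n + 1) ^ S.card := by
    intro n
    refine Finset.card_image_le.trans ?_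
    rw [Fintype.card_piFinset]
    simp
  have hsub : ∀ n, C n ⊆ C (n + 1) := by
    intro n
    refine Finset.image_subset_image ?_
    intro m hm
    rw [Fintype.mem_piFinset] at hm ⊢
    intro s
    have := hm s
    rw [Finset.mem_range] at this ⊢
    omega
  have hadd : ∀ n, ∀ s ∈ S, ∀ c ∈ C n, c + s ∈ C (n + 1) := by
    intro n s hs c hc
    obtain ⟨m, hm, rfl⟩ := Finset.mem_image.mp hc
    refine Finset.mem_image.mpr ⟨m + Pi.single ⟨s, hs⟩ 1, ?_, ?_⟩
    · rw [Fintype.mem_piFinset] at hm ⊢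
      intro t
      have := hm t
      rw [Finset.mem_range] at this ⊢
      rw [Pi.add_apply]
      have h2 : (Pi.single ⟨s, hs⟩ 1 : S → ℕ) t ≤ 1 := by
        rw [Pi.single_apply]; split_ifs <;> omega
      omega
    · simp only [hφ, Pi.add_apply]
      have : ∀ t : S, (((m t + (Pi.single ⟨s, hs⟩ 1 : S → ℕ) t : ℕ) : ℂ)) * (t : ℂ) =
          (m t : ℂ) * (t : ℂ) + (if t = ⟨s, hs⟩ then (s : ℂ) else 0) := by
        intro t
        rw [Pi.single_apply]
        split_ifs with h
        · subst h; push_cast; ring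
        · push_cast; ring
      rw [Finset.sum_congr rfl (fun t _ => this t), Finset.sum_add_distrib]
      simp
  have hne : ∀ n, (C n).Nonempty := by
    intro n
    refine ⟨φ 0, Finset.mem_image.mpr ⟨0, ?_, rfl⟩⟩
    rw [Fintype.mem_piFinset]
    intro s
    simp
  obtain ⟨n, hn⟩ : ∃ n, ((C (n + 1)).card : ℝ) ≤ (1 + ε) * ((C n).card : ℝ) := by
    by_contra hcon
    push Not at hcon
    have hpow : ∀ n, (1 + ε) ^ n ≤ ((C n).card : ℝ) := by
      intro n
      induction n with
      | zero =>
        have := (hne 0).card_pos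
        rw [pow_zero]; exact_mod_cast this
      | succ n ih =>
        rw [pow_succ, mul_comm]
        refine (mul_le_mul_of_nonneg_left ih (by linarith)).trans (hcon n).le
    have ht := tendsto_pow_const_div_const_pow_of_one_lt S.card (by linarith : (1 : ℝ) < 1 + ε)
    have ht' := ht.comp (tendsto_add_atTop_nat 1)
    have hpos : (0 : ℝ) < 1 / (1 + ε) := by positivity
    obtain ⟨n, hn⟩ := (ht'.eventually (gt_mem_nhds hpos)).exists
    simp only [Function.comp] at hn
    have h1 : (1 + ε) ^ n ≤ ((n + 1 : ℕ) : ℝ) ^ S.card := by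
      refine (hpow n).trans ?_
      exact_mod_cast hcard n
    rw [div_lt_div_iff₀ (by positivity) (by positivity), pow_succ] at hn
    nlinarith [pow_pos (by linarith : (0 : ℝ) < 1 + ε) n]
  refine ⟨C (n + 1), hne _, ?_⟩
  intro s hs
  have h1 : C n ⊆ (C (n + 1)).filter (fun b => b + s ∈ C (n + 1)) := by
    intro c hc
    exact Finset.mem_filter.mpr ⟨hsub n hc, hadd n s hs c hc⟩
  have h2 : ((C n).card : ℝ) ≤ (((C (n + 1)).filter (fun b => b + s ∈ C (n + 1))).card : ℝ) := by
    exact_mod_cast Finset.card_le_card h1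
  refine le_trans ?_ h2
  have h3 : (0 : ℝ) ≤ ((C n).card : ℝ) := by positivity
  have h4 : (0 : ℝ) ≤ ((C (n + 1)).card : ℝ) := by positivity
  rcases le_or_gt ε 1 with h | h
  · nlinarith [mul_le_mul_of_nonneg_left hn (by linarith : (0 : ℝ) ≤ 1 - ε), mul_nonneg (mul_nonneg hε.le hε.le) h3]
  · nlinarith

end Pool.Agent.Helper85.RG
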