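import Pool.Agent.Helper13.RG.Stmts

/-!
# SAM: same values before and after base change
-/

set_option autoImplicit false

open scoped Classical

namespace Pool.Agent.Helper13.RG

open Pool.Agent.Helper14.BSC Pool.Agent.Helper13.ZL

theorem st_SAM (hPEX : ST_PEX) (hEXB : ST_EXB) (hDWG : Pool.Agent.Helper22.FF.ST_DWG) :
    ST_SAM := by
  intro k k₁ Ω _ _ _ _ _ _ _ _ j D D' D₁ D₁' hB hB' x y x₁ y₁ hx hy
  have : CharZero k := inferInstance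
  constructor
  · intro h p _ σ₁ P₁ P₁'
    obtain ⟨P⟩ := hPEX k Ω D p (σ₁.comp j)
    obtain ⟨P'⟩ := hPEX k Ω D' p (σ₁.comp j)
    have e1 := hDWG k k₁ Ω j D D₁ hB.hj hB.sub p (σ₁.comp j) σ₁ (fun c => rfl) P P₁ x x₁ hx
    have e2 := hDWG k k₁ Ω j D' D₁' hB'.hj hB'.sub p (σ₁.comp j) σ₁ (fun c => rfl) P' P₁' y y₁ hy
    have e3 := h p (σ₁.comp j) P P'
    refine ⟨e1.1.symm.trans (e3.1.trans e2.1), fun h1 h2 => ?_⟩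
    rw [← e1.2 (e1.1.2 h1) h1, ← e2.2 (e2.1.2 h2) h2]
    exact e3.2 _ _
  · intro h p _ σ P P'
    obtain ⟨σ₁, hσ⟩ := hEXB k k₁ j p σ
    obtain ⟨P₁⟩ := hPEX k₁ Ω D₁ p σ₁
    obtain ⟨P₁'⟩ := hPEX k₁ Ω D₁' p σ₁
    have e1 := hDWG k k₁ Ω j D D₁ hB.hj hB.sub p σ σ₁ hσ P P₁ x x₁ hx
    have e2 := hDWG k k₁ Ω j D' D₁' hB'.hj hB'.sub p σ σ₁ hσ P' P₁' y y₁ hy
    have e3 := h p σ₁ P₁ P₁'
    refine ⟨e1.1.trans (e3.1.trans e2.1.symm), fun h1 h2 => ?_⟩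
    rw [e1.2 h1 (e1.1.1 h1), e2.2 h2 (e2.1.1 h2)]
    exact e3.2 _ _

end Pool.Agent.Helper13.RG
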